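import Pool.Agent.N659.HB.Stm4
import Pool.Agent.W191.LL.Avg0

/-!
Project SN: translation of the momenta, and the sign of the adjacency operator.
-/

set_option autoImplicit false

namespace Pool.Agent.N377.SN

open MeasureTheory Filter Pool.Agent.W792.LL Pool.Agent.W792.WA Pool.Agent.N659.HB
open scoped Topology ENNReal

noncomputable section

/-- translation of the argument of a monomial -/
theorem mf_add {d : ℕ} (n : Fin d → ℤ) (x y : UnitAddTorus (Fin d)) :
    UnitAddTorus.mFourier n (x + y) = UnitAddTorus.mFourier n x * UnitAddTorus.mFourier n y := by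
  simp only [UnitAddTorus.mFourier, ContinuousMap.coe_mk, Pi.add_apply, fourier_apply, smul_add,
    AddCircle.toCircle_add, Circle.coe_mul, Finset.prod_mul_distrib]

theorem mf_norm {d : ℕ} (n : Fin d → ℤ) (x : UnitAddTorus (Fin d)) :
    ‖UnitAddTorus.mFourier n x‖ = 1 := by
  simp only [UnitAddTorus.mFourier, ContinuousMap.coe_mk, norm_prod, fourier_apply,
    Circle.norm_coe, Finset.prod_const_one]

/-- the coefficients of a translated function -/
theorem coeff_shift {d : ℕ} (f : UnitAddTorus (Fin d) → ℂ) (c : UnitAddTorus (Fin d))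
    (n : Fin d → ℤ) :
    UnitAddTorus.mFourierCoeff (fun k => f (k + c)) n
      = UnitAddTorus.mFourier n c * UnitAddTorus.mFourierCoeff f n := by
  rw [Pool.Agent.W191.LL.mfc_eq, Pool.Agent.W191.LL.mfc_eq, ← integral_const_mul]
  have hinv : (Pool.Agent.W191.LL.mu d).IsAddRightInvariant := by
    unfold Pool.Agent.W191.LL.mu
    infer_instance
  rw [← integral_add_right_eq_self (μ := Pool.Agent.W191.LL.mu d)
    (fun k => UnitAddTorus.mFourier n c * (UnitAddTorus.mFourier (-n) k * f k)) c]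
  congr 1
  funext k
  rw [mf_add (-n) k c]
  have h1 : UnitAddTorus.mFourier n c * UnitAddTorus.mFourier (-n) c = 1 := by
    rw [← UnitAddTorus.mFourier_add, add_neg_cancel, UnitAddTorus.mFourier_zero]
    rfl
  calc UnitAddTorus.mFourier (-n) k * f (k + c)
      = (UnitAddTorus.mFourier n c * UnitAddTorus.mFourier (-n) c)
        * (UnitAddTorus.mFourier (-n) k * f (k + c)) := by rw [h1, one_mul]
    _ = _ := by ring

/-- the symbol translated by `c` -/
def tr {d : ℕ} (c : UnitAddTorus (Fin d)) (K : C(UnitAddTorus (Fin d), ℝ)) :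
    C(UnitAddTorus (Fin d), ℝ) where
  toFun k := K (k + c)
  continuous_toFun := by fun_prop

theorem hop_tr {d : ℕ} (c : UnitAddTorus (Fin d)) (K : C(UnitAddTorus (Fin d), ℝ))
    (x : Fin d → ℤ) : hopK (tr c K) x = UnitAddTorus.mFourier x c * hopK K x :=
  coeff_shift (fun k => (K k : ℂ)) c x

theorem tr_tr {d : ℕ} (c : UnitAddTorus (Fin d)) (K : C(UnitAddTorus (Fin d), ℝ)) :
    tr (-c) (tr c K) = K := by
  ext k
  change K (k + -c + c) = K k
  congr 1
  abel

/-- a change of gauge -/
theorem sol_tr {d : ℕ} (c : UnitAddTorus (Fin d)) (K : C(UnitAddTorus (Fin d), ℝ)) (lam : ℝ)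
    (v : (Fin d → ℤ) → ℝ) (z : ℂ) (x : Fin d → ℤ) (w : (Fin d → ℤ) → ℂ)
    (h : Sol (hopK K) lam v z x w) :
    Sol (hopK (tr c K)) lam v z x (fun y => UnitAddTorus.mFourier (y - x) c * w y) := by
  obtain ⟨h1, h2⟩ := h
  refine ⟨?_, fun y => ?_⟩
  · refine h1.congr fun y => ?_
    rw [norm_mul, mf_norm, one_mul]
  · have e : ∀ y', hopK (tr c K) (y - y') * (UnitAddTorus.mFourier (y' - x) c * w y')
        = UnitAddTorus.mFourier (y - x) c * (hopK K (y - y') * w y') := by
      intro y'
      rw [hop_tr]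
      have e1 : UnitAddTorus.mFourier (y - y') c * UnitAddTorus.mFourier (y' - x) c
          = UnitAddTorus.mFourier (y - x) c := by
        rw [← UnitAddTorus.mFourier_add, sub_add_sub_cancel]
      rw [← e1]
      ring
    rw [tsum_congr e, tsum_mul_left]
    have h3 : UnitAddTorus.mFourier (y - x) c * (∑' y', hopK K (y - y') * w y'
        + (lam * v y : ℝ) * w y - z * w y)
        = UnitAddTorus.mFourier (y - x) c * (if y = x then (1 : ℂ) else 0) := by rw [h2 y]
    have h4 : UnitAddTorus.mFourier (y - x) c * (if y = x then (1 : ℂ) else 0)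
        = if y = x then 1 else 0 := by
      split_ifs with h5
      · rw [h5, sub_self, UnitAddTorus.mFourier_zero]
        simp
      · rw [mul_zero]
    rw [h4] at h3
    rw [← h3]
    ring

theorem sol_tr' {d : ℕ} (c : UnitAddTorus (Fin d)) (K : C(UnitAddTorus (Fin d), ℝ)) (lam : ℝ)
    (v : (Fin d → ℤ) → ℝ) (z : ℂ) (x : Fin d → ℤ) (w : (Fin d → ℤ) → ℂ)
    (h : Sol (hopK (tr c K)) lam v z x w) :
    Sol (hopK K) lam v z x (fun y => UnitAddTorus.mFourier (y - x) (-c) * w y) := by
  have := sol_tr (-c) (tr c K) lam v z x w h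
  rwa [tr_tr] at this

/-- translation of the momenta does not change the spectral measures -/
theorem acik_tr {d : ℕ} (c : UnitAddTorus (Fin d)) {K : C(UnitAddTorus (Fin d), ℝ)} {lam : ℝ}
    {v : (Fin d → ℤ) → ℝ} {a b : ℝ} (h : ACIK K lam v a b) : ACIK (tr c K) lam v a b := by
  intro x
  obtain ⟨μ, g, h1, h2, h3⟩ := h x
  refine ⟨μ, g, h1, fun z hz => ?_, h3⟩
  obtain ⟨⟨w, hw⟩, h4⟩ := h2 z hz
  refine ⟨⟨_, sol_tr c K lam v z x w hw⟩, fun w' hw' => ?_⟩
  have h5 := h4 _ (sol_tr' c K lam v z x w' hw')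
  rw [← h5]
  simp only [sub_self, UnitAddTorus.mFourier_zero, ContinuousMap.one_apply, one_mul]

/-- half a period in every direction -/
def hf (d : ℕ) : UnitAddTorus (Fin d) := fun _ => ((1 / 2 : ℝ) : UnitAddCircle)

theorem lap_hf (d : ℕ) (k : UnitAddTorus (Fin d)) : lap d (k + hf d) = 4 * d - lap d k := by
  have h : ∀ i, (fourier 1 ((k + hf d) i) : ℂ) = - fourier 1 (k i) := by
    intro i
    have h1 := fourier_add_half_inv_index (T := 1) (n := 1) one_ne_zero one_pos (k i)
    have e : ((1 : ℝ) / 2 / ((1 : ℤ) : ℝ)) = 1 / 2 := by norm_num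
    rw [e] at h1
    exact h1
  change ∑ i, (2 - 2 * (fourier 1 ((k + hf d) i)).re)
    = 4 * (d : ℝ) - ∑ i, (2 - 2 * (fourier 1 (k i)).re)
  rw [eq_sub_iff_add_eq, ← Finset.sum_add_distrib]
  have : ∀ i : Fin d, (2 - 2 * (fourier 1 ((k + hf d) i)).re) + (2 - 2 * (fourier 1 (k i)).re)
      = (4 : ℝ) := by
    intro i
    rw [h i, Complex.neg_re]
    ring
  simp only [this]
  simp [mul_comm]

end

end Pool.Agent.N377.SN
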