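import Pool.Agent.N776.SD.Fin
import Pool.Agent.N659.HB.Stm10
import Pool.Agent.N377.SN.Gauge

/-!
Project SN: assembly of the theorem at strong coupling, Gaussian law.
-/

set_option autoImplicit false

namespace Pool.Agent.N377.SN

open MeasureTheory Filter Pool.Agent.W792.LL Pool.Agent.W792.WA Pool.Agent.W191.LL ProbabilityTheory
open Pool.Agent.N659.HB
open scoped Topology ENNReal

noncomputable section

/-- Scaling of the Gaussian law. -/
theorem gs_map (g : ℝ) : ((gaussianReal 0 1).map fun x => g * x) = gs g := by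
  have h := gaussianReal_map_const_mul (μ := 0) (v := 1) g
  rw [mul_zero, mul_one] at h
  exact h

/-- The Gaussian law has no atoms. -/
theorem gs_atom {s : ℝ} (hs : 0 < s) (a : ℝ) : gs s {a} < 1 := by
  have hv : (⟨s ^ 2, sq_nonneg s⟩ : NNReal) ≠ 0 := by
    intro h
    have h1 := congrArg NNReal.toReal h
    change s ^ 2 = 0 at h1
    have : 0 < s ^ 2 := by positivity
    linarith
  have hn := nullSingletonClass_gaussianReal (μ := 0) hv
  have : gs s {a} = 0 := by
    unfold gs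
    exact measure_singleton a
  rw [this]
  simp

/-- The theorem at strong coupling, Gaussian law. -/
theorem main (hG : S_SDGU) (hC : S_CHK) (hAe : S_AEQK) (hAf : S_AFF) (hCay : S_CAY) (hW : S_WS)
    (hψ : ∃ ψ : C(UnitAddCircle, ℝ), IsSemi ψ ∧ ∀ d : ℕ, 0 < d → ∃ C : ℝ, 0 < C ∧
      ∀ (M : ℕ) (x : Fin d → ℤ),
      ‖UnitAddTorus.mFourierCoeff (fun k : UnitAddTorus (Fin d) =>
        ((ψ ((M * lap d k / (2 * Real.pi) : ℝ) : UnitAddCircle) : ℝ) : ℂ)) x‖
        ≤ C / (1 + ‖x‖) ^ ((d : ℝ) / 3)) : S_SDN := by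
  intro d A hd hA
  obtain ⟨ψ, hψ1, hψ2⟩ := hψ
  obtain ⟨Cd, hCd, hCd1⟩ := hψ2 d hd
  have hdr : (0 : ℝ) < d := by exact_mod_cast hd
  have hA1 : 0 < A + 1 := by linarith
  set s : ℝ := 2 * d / (A + 1) with hs
  have hs0 : 0 < s := by positivity
  obtain ⟨γ₀, r₀, hγ₀, hr₀, hgap⟩ := hG ψ hψ1 d s (2 * d) (2 * d) hd hs0 (by positivity)
  refine ⟨max (2 * d) (2 * d / ((A + 1) * γ₀)), lt_max_of_lt_left (by positivity), ?_⟩
  intro sg ε hsg hε
  have hsg1 : 2 * (d : ℝ) ≤ sg := (le_max_left _ _).trans hsg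
  have hsg2 : 2 * (d : ℝ) / ((A + 1) * γ₀) ≤ sg := (le_max_right _ _).trans hsg
  have hc0 : 0 < sg := by linarith
  set γ : ℝ := 2 * d / ((A + 1) * sg) with hγdef
  have hγ : 0 < γ := by positivity
  have hγγ : γ ≤ γ₀ := by
    rw [div_le_iff₀ (by positivity)] at hsg2
    rw [hγdef, div_le_iff₀ (by positivity)]
    calc (2 * d : ℝ) ≤ sg * ((A + 1) * γ₀) := hsg2
      _ = γ₀ * ((A + 1) * sg) := by ring
  have hγc : γ * sg = s := by
    rw [hγdef, hs]; field_simp
  have hγθ : γ * ((A + 1) * sg) = 2 * d := by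
    rw [hγdef]; field_simp
  set K' : C(UnitAddTorus (Fin d), ℝ) :=
    γ • (lap d - ContinuousMap.const _ (-((A + 1) * sg))) with hK'
  have hKk : ∀ k, K' k = 2 * d + γ * lap d k := by
    intro k
    rw [hK']
    simp only [ContinuousMap.smul_apply, ContinuousMap.sub_apply, ContinuousMap.const_apply,
      smul_eq_mul]
    rw [sub_neg_eq_add, mul_add, hγθ]
    ring
  -- the levels
  obtain ⟨r, hr0, hrr, hr1, hr3⟩ : ∃ r : ℝ, 0 < r ∧ r ≤ r₀ ∧ 2 * r ≤ γ * ε ∧
      2 * r * Cd ≤ γ * ε := by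
    refine ⟨min r₀ (min (γ * ε / 2) (γ * ε / (2 * Cd))),
      lt_min hr₀ (lt_min (by positivity) (by positivity)), min_le_left _ _, ?_, ?_⟩
    · have h1 := min_le_right r₀ (min (γ * ε / 2) (γ * ε / (2 * Cd)))
      have h2 := min_le_left (γ * ε / 2) (γ * ε / (2 * Cd))
      linarith
    · have h1 := min_le_right r₀ (min (γ * ε / 2) (γ * ε / (2 * Cd)))
      have h2 := h1.trans (min_le_right (γ * ε / 2) (γ * ε / (2 * Cd)))
      rw [le_div_iff₀ (by positivity)] at h2
      linarith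
  obtain ⟨σ, hσ, hgap1⟩ := hgap γ r hγ hγγ hr0 hrr
  -- law
  have hm2 : Measurable fun x : ℝ => (γ * sg) * x := by fun_prop
  have hP2 : IsProbabilityMeasure ((gaussianReal 0 1).map fun x => (γ * sg) * x) :=
    Measure.isProbabilityMeasure_map hm2.aemeasurable
  have hmap : ((gaussianReal 0 1).map fun x => (γ * sg) * x) = gs s := by
    rw [gs_map, hγc]
  obtain ⟨f0, hf1, hf2⟩ : ∃ f : C(ℝ, ℝ), IsSum ψ (2 * r) f ∧
      MestK (K' + gK f d) ((gaussianReal 0 1).map fun x => (γ * sg) * x) := by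
    have key : ∀ (ν' : Measure ℝ) [IsProbabilityMeasure ν'], ν' = gs s →
        ∃ f : C(ℝ, ℝ), IsSum ψ (2 * r) f ∧ MestK (K' + gK f d) ν' := by
      intro ν' _ he
      subst he
      have hvr : 0 < vr (gs s) := Pool.Agent.W792.WA.Ch.vr_pos hCay _ (gs_atom hs0)
      refine hC ψ hψ1 d (gs s) K' r σ hd hvr hr0 hσ ?_
      intro ρ' _ hρ z hz m hm
      obtain ⟨z1, z2, z3, z4⟩ := hz
      refine hgap1 ρ' hρ K' hKk z ?_ z3 z4 m hm
      rw [abs_le]
      constructor <;> linarith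
    exact key _ hmap
  have hfb : ∀ t, |f0 t| ≤ 2 * r := fun t => G16.IsSum.bound hψ1.bound hf1 t
  set F : C(ℝ, ℝ) := γ⁻¹ • f0 with hFdef
  have hFt : ∀ t, F t = γ⁻¹ * f0 t := fun t => rfl
  -- the sign of the adjacency operator
  set b : C(ℝ, ℝ) := ⟨fun t => F (2 * (d : ℝ) + t), by fun_prop⟩ with hb
  have hbt : ∀ t, b t = F (2 * (d : ℝ) + t) := fun t => rfl
  have hadj : ∀ k, adjm d k = 2 * d - lap d k := fun k => by
    simp only [adjm, ContinuousMap.sub_apply, ContinuousMap.const_apply]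
  have hbk : ∀ k, b (adjm d k) = F (lap d (k + hf d)) := fun k => by
    rw [hbt, lap_hf, hadj]
    congr 1
    ring
  refine ⟨b, fun t => ?_, fun x => ?_, ?_⟩
  · rw [hbt, hFt, abs_mul, abs_of_pos (inv_pos.2 hγ)]
    calc γ⁻¹ * |f0 (2 * (d : ℝ) + t)| ≤ γ⁻¹ * (γ * ε) :=
          mul_le_mul_of_nonneg_left ((hfb _).trans hr1) (inv_pos.2 hγ).le
      _ = ε := by field_simp
  · have e0 : (fun k : UnitAddTorus (Fin d) => ((b (adjm d k) : ℝ) : ℂ))
        = fun k => (fun k' : UnitAddTorus (Fin d) => ((F (lap d k') : ℝ) : ℂ)) (k + hf d) := by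
      funext k
      rw [hbk]
    have e2' := coeff_shift (fun k' : UnitAddTorus (Fin d) => ((F (lap d k') : ℝ) : ℂ)) (hf d) x
    rw [e0]
    refine le_trans (le_of_eq (congrArg norm e2')) ?_
    rw [norm_mul, Pool.Agent.N377.SN.mf_norm, one_mul]
    have e1' : (fun k : UnitAddTorus (Fin d) => ((F (lap d k) : ℝ) : ℂ))
        = fun k => ((γ⁻¹ * (f0 (lap d k)) : ℝ) : ℂ) := rfl
    rw [e1', hop_smul]
    have h2 := hW d ψ Cd (2 * r) f0 hd hCd.le (by positivity) hCd1 hf1 x
    have hx0 : (0 : ℝ) < (1 + ‖x‖) ^ ((d : ℝ) / 3) := by positivity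
    rw [norm_mul, Complex.norm_real, Real.norm_of_nonneg (inv_pos.2 hγ).le]
    calc γ⁻¹ * _ ≤ γ⁻¹ * (γ * ε / (1 + ‖x‖) ^ ((d : ℝ) / 3)) := by
          refine mul_le_mul_of_nonneg_left (h2.trans ?_) (inv_pos.2 hγ).le
          exact div_le_div_of_nonneg_right hr3 hx0.le
      _ = ε / (1 + ‖x‖) ^ ((d : ℝ) / 3) := by
          field_simp
  · have hkey : K' + gK f0 d
        = γ • ((lap d + gK F d) - ContinuousMap.const _ (-((A + 1) * sg))) := by
      rw [hK']
      ext k
      simp only [ContinuousMap.add_apply, ContinuousMap.smul_apply, ContinuousMap.sub_apply,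
        ContinuousMap.const_apply, smul_eq_mul, gK, ContinuousMap.comp_apply, hFt]
      field_simp
      ring
    have hsh : (lap d + gK F d : C(UnitAddTorus (Fin d), ℝ)) = (1 : ℝ) •
        ((lap d + gK F d - ContinuousMap.const _ (2 * (d : ℝ))) -
          ContinuousMap.const _ (-(2 * (d : ℝ)))) := by
      ext k
      simp only [ContinuousMap.add_apply, ContinuousMap.smul_apply, ContinuousMap.sub_apply,
        ContinuousMap.const_apply, smul_eq_mul]
      ring
    have htr : tr (hf d) (lap d + gK F d - ContinuousMap.const _ (2 * (d : ℝ)))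
        = adjm d + b.comp (adjm d) := by
      ext k
      change lap d (k + hf d) + F (lap d (k + hf d)) - 2 * (d : ℝ) = adjm d k + b (adjm d k)
      rw [hbk, lap_hf, hadj]
      ring
    have h0 := hAe d (gaussianReal 0 1) (γ * sg) (K' + gK f0 d) hd (by positivity) hf2
    filter_upwards [h0] with v hv
    rw [hkey] at hv
    have h3 := hAf d (lap d + gK F d) γ (-((A + 1) * sg)) sg 0 (4 * d) v hγ hv
    have h4 : -((A + 1) * sg) + 0 / γ = -((A + 1) * sg) := by simp
    have h5 : -((A + 1) * sg) + 4 * d / γ = (A + 1) * sg := by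
      rw [hγdef]; field_simp; ring
    rw [h4, h5, hsh] at h3
    have h3' : ACIK ((1 : ℝ) • ((lap d + gK F d - ContinuousMap.const _ (2 * (d : ℝ))) -
          ContinuousMap.const _ (-(2 * (d : ℝ))))) (1 * sg) v (-((A + 1) * sg)) ((A + 1) * sg) := by
      rw [one_mul]
      exact h3
    have h6 := hAf d _ 1 (-(2 * (d : ℝ))) sg _ _ v one_pos h3'
    have h7 := acik_tr (hf d) h6
    rw [htr] at h7
    refine ACIK_mono h7 ?_ ?_
    · rw [div_one]
      nlinarith
    · rw [div_one]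
      nlinarith

end

end Pool.Agent.N377.SN
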